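import Pool.Agent.Run7.h457.MT.Tann
import Pool.Agent.Run7.h475.MT.Rat

/-!
# Project MT457, piece P11f (helper644): direct summands
-/

set_option autoImplicit false

namespace Run7.h644.MT

open Matrix Filter Topology Run7.h457.MT Run7.h475.MT

noncomputable section

/-- The character `z ↦ z ^ (-a) * conj z ^ (-b)` of `ℂ^×`. -/
def chr (q : ℤ × ℤ) : ℂˣ →* ℂ where
  toFun z := (z : ℂ) ^ (-q.1) * starRingEnd ℂ (z : ℂ) ^ (-q.2)
  map_one' := by simp
  map_mul' z w := by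
    rw [Units.val_mul, map_mul, mul_zpow, mul_zpow]
    ring

theorem chr_inj : Function.Injective chr := by
  rintro ⟨a, b⟩ ⟨a', b'⟩ h
  have h1 : ∀ z : ℂ, z ≠ 0 → z ^ (-a) * starRingEnd ℂ z ^ (-b) =
      z ^ (-a') * starRingEnd ℂ z ^ (-b') := fun z hz =>
    congrArg (fun f : ℂˣ →* ℂ => f (Units.mk0 z hz)) h
  -- `z = 2`
  have h2 : a + b = a' + b' := by
    have h3 := h1 2 (by norm_num)
    have h4 : starRingEnd ℂ (2 : ℂ) = 2 := by
      exact Complex.conj_ofNat 2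
    rw [h4, ← zpow_add₀ (by norm_num), ← zpow_add₀ (by norm_num)] at h3
    have h5 : ((2 : ℝ) ^ (-a + -b)) = (2 : ℝ) ^ (-a' + -b') := by
      have := congrArg (fun z : ℂ => ‖z‖) h3
      simpa using this
    have h6 := zpow_right_injective₀ (by norm_num : (0 : ℝ) < 2) (by norm_num) h5
    omega
  have h3 : b - a = b' - a' := by
    by_contra hne
    have hn : ((b - a - (b' - a') : ℤ) : ℂ) ≠ 0 := by
      intro h0
      exact hne (by have := Int.cast_injective (α := ℂ) (h0.trans Int.cast_zero.symm); omega)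
    set n : ℤ := b - a - (b' - a') with hndef
    set t : ℂ := (Real.pi : ℂ) / (n : ℂ) * Complex.I with ht
    have hz : Complex.exp t ≠ 0 := Complex.exp_ne_zero t
    have hc : starRingEnd ℂ (Complex.exp t) = Complex.exp (-t) := by
      rw [← Complex.exp_conj]
      congr 1
      rw [ht, map_mul, map_div₀, Complex.conj_I, Complex.conj_ofReal, map_intCast]
      ring
    have h4 := h1 _ hz
    rw [hc, ← Complex.exp_int_mul, ← Complex.exp_int_mul, ← Complex.exp_int_mul,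
      ← Complex.exp_int_mul, ← Complex.exp_add, ← Complex.exp_add] at h4
    have h5 : Complex.exp (((-a : ℤ) : ℂ) * t + ((-b : ℤ) : ℂ) * (-t) -
        (((-a' : ℤ) : ℂ) * t + ((-b' : ℤ) : ℂ) * (-t))) = 1 := by
      rw [Complex.exp_sub, h4, div_self (Complex.exp_ne_zero _)]
    have h6 : ((-a : ℤ) : ℂ) * t + ((-b : ℤ) : ℂ) * (-t) -
        (((-a' : ℤ) : ℂ) * t + ((-b' : ℤ) : ℂ) * (-t)) = (n : ℂ) * t := by
      rw [hndef]
      push_cast
      ring
    rw [h6, ht, show (n : ℂ) * ((Real.pi : ℂ) / (n : ℂ) * Complex.I) = Real.pi * Complex.I by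
      field_simp, Complex.exp_pi_mul_I] at h5
    norm_num at h5
  have h4 : a = a' := by omega
  have h5 : b = b' := by omega
  rw [h4, h5]

/-- Coefficients of distinct characters of `ℂ^×` are determined. -/
theorem chr_indep {κ : Type} (Q : Finset (ℤ × ℤ)) (X : ℤ × ℤ → Matrix κ κ ℂ)
    (h : ∀ z : ℂ, z ≠ 0 → ∑ q ∈ Q, (z ^ (-q.1) * starRingEnd ℂ z ^ (-q.2)) • X q = 0) :
    ∀ q ∈ Q, X q = 0 := by
  intro q hq
  ext k l
  have h1 : LinearIndependent ℂ (fun q : ℤ × ℤ => (chr q : ℂˣ → ℂ)) :=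
    (linearIndependent_monoidHom ℂˣ ℂ).comp chr chr_inj
  have h2 := linearIndependent_iff'.1 h1 Q (fun q => X q k l) ?_ q hq
  · exact h2
  · funext z
    have h3 := congrFun (congrFun (h (z : ℂ) z.ne_zero) k) l
    rw [Matrix.sum_apply] at h3
    rw [Finset.sum_apply]
    refine Eq.trans (Finset.sum_congr rfl fun q _ => ?_) h3
    rw [Pi.smul_apply, smul_eq_mul, Matrix.smul_apply, smul_eq_mul, mul_comm]
    rfl

section group

variable {κ C : Type} [Fintype κ] [DecidableEq κ] [Fintype C] [DecidableEq C] (a b : C → ℤ)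
  (e : C → Matrix κ κ ℂ)

/-- The set of types. -/
def QQ : Finset (ℤ × ℤ) := Finset.univ.image fun c => (a c, b c)

/-- The sum of the `e c` with the same type. -/
def fq (q : ℤ × ℤ) : Matrix κ κ ℂ := ∑ c with (a c, b c) = q, e c

omit [Fintype κ] [DecidableEq κ] [DecidableEq C] in
theorem fq_sum (φ : ℤ × ℤ → ℂ) :
    ∑ c, φ (a c, b c) • e c = ∑ q ∈ QQ a b, φ q • fq a b e q := by
  rw [← Finset.sum_fiberwise_of_maps_to (g := fun c => (a c, b c)) (t := QQ a b)
    (fun c _ => Finset.mem_image_of_mem _ (Finset.mem_univ c))]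
  refine Finset.sum_congr rfl fun q _ => ?_
  rw [fq, Finset.smul_sum]
  refine Finset.sum_congr rfl fun c hc => ?_
  rw [(Finset.mem_filter.1 hc).2]

omit [DecidableEq κ] in
theorem fq_mul (he : ∀ c c', e c * e c' = if c = c' then e c else 0) (q q' : ℤ × ℤ) :
    fq a b e q * fq a b e q' = if q = q' then fq a b e q else 0 := by
  rw [fq, fq, Finset.sum_mul]
  split_ifs with h
  · subst h
    refine Finset.sum_congr rfl fun c hc => ?_
    rw [Finset.mul_sum, Finset.sum_eq_single c]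
    · rw [he, if_pos rfl]
    · intro c' _ hcc
      rw [he, if_neg (Ne.symm hcc)]
    · intro hn
      exact absurd hc hn
  · refine Finset.sum_eq_zero fun c hc => ?_
    rw [Finset.mul_sum]
    refine Finset.sum_eq_zero fun c' hc' => ?_
    rw [he, if_neg]
    intro hcc
    subst hcc
    exact h ((Finset.mem_filter.1 hc).2.symm.trans (Finset.mem_filter.1 hc').2)

omit [DecidableEq κ] [DecidableEq C] in
/-- A matrix which commutes with the operators of `ℂ^×` commutes with the projections to the pieces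
of the Hodge decomposition. -/
theorem fq_comm (p : Matrix κ κ ℂ)
    (hp : ∀ z : ℂ, z ≠ 0 → p * (∑ c, (z ^ (-a c) * starRingEnd ℂ z ^ (-b c)) • e c) =
      (∑ c, (z ^ (-a c) * starRingEnd ℂ z ^ (-b c)) • e c) * p) (q : ℤ × ℤ) (hq : q ∈ QQ a b) :
    p * fq a b e q = fq a b e q * p := by
  have h := chr_indep (QQ a b) (fun q => p * fq a b e q - fq a b e q * p) ?_ q hq
  · exact sub_eq_zero.1 h
  · intro z hz
    have h1 := hp z hz
    rw [fq_sum a b e (fun q => z ^ (-q.1) * starRingEnd ℂ z ^ (-q.2)), Finset.mul_sum,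
      Finset.sum_mul, ← sub_eq_zero, ← Finset.sum_sub_distrib] at h1
    refine Eq.trans (Finset.sum_congr rfl fun q _ => ?_) h1
    rw [smul_sub, Matrix.mul_smul, Matrix.smul_mul]

end group

section lin

variable {κ κ' κ'' : Type} [Fintype κ] [Fintype κ'] [Fintype κ'']

theorem map_rat_mul {F : Type} [Field F] [Algebra ℚ F] (p : Matrix κ κ' ℚ) (X : Matrix κ' κ'' F)
    (φ : F →ₗ[ℚ] ℚ) : (p.map (algebraMap ℚ F) * X).map φ = p * X.map φ := by
  ext k l
  rw [Matrix.map_apply, Matrix.mul_apply, Matrix.mul_apply, map_sum]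
  refine Finset.sum_congr rfl fun j _ => ?_
  rw [Matrix.map_apply, Matrix.map_apply, ← Algebra.smul_def, map_smul, smul_eq_mul]

theorem map_mul_rat {F : Type} [Field F] [Algebra ℚ F] (X : Matrix κ κ' F) (p : Matrix κ' κ'' ℚ)
    (φ : F →ₗ[ℚ] ℚ) : (X * p.map (algebraMap ℚ F)).map φ = X.map φ * p := by
  ext k l
  rw [Matrix.map_apply, Matrix.mul_apply, Matrix.mul_apply, map_sum]
  refine Finset.sum_congr rfl fun j _ => ?_
  rw [Matrix.map_apply, Matrix.map_apply, mul_comm, ← Algebra.smul_def, map_smul, smul_eq_mul,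
    mul_comm]

end lin

section sand

variable {ι κ κ' : Type} [Fintype ι] [DecidableEq ι] [Fintype κ] [DecidableEq κ] [Fintype κ']
  [DecidableEq κ']

/-- The linear map `A ↦ r * E A * i`. -/
def sand (E : Matrix ι ι ℚ →ₗ[ℚ] Matrix κ κ ℚ) (i : Matrix κ κ' ℚ) (r : Matrix κ' κ ℚ) :
    Matrix ι ι ℚ →ₗ[ℚ] Matrix κ' κ' ℚ where
  toFun A := r * E A * i
  map_add' A B := by rw [map_add, Matrix.mul_add, Matrix.add_mul]
  map_smul' c A := by rw [map_smul, Matrix.mul_smul, Matrix.smul_mul, RingHom.id_apply]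

omit [DecidableEq κ] [DecidableEq κ'] in
theorem sand_apply (E : Matrix ι ι ℚ →ₗ[ℚ] Matrix κ κ ℚ) (i : Matrix κ κ' ℚ) (r : Matrix κ' κ ℚ)
    (A : Matrix ι ι ℚ) : sand E i r A = r * E A * i := rfl

omit [DecidableEq κ] [DecidableEq κ'] in
theorem ext_sand (F : Type) [Field F] [Algebra ℚ F] (E : Matrix ι ι ℚ →ₗ[ℚ] Matrix κ κ ℚ)
    (i : Matrix κ κ' ℚ) (r : Matrix κ' κ ℚ) (A : Matrix ι ι F) :
    ext F (sand E i r) A = r.map (algebraMap ℚ F) * ext F E A * i.map (algebraMap ℚ F) := by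
  show ∑ x, ∑ y, A x y • (sand E i r (Matrix.single x y 1)).map (algebraMap ℚ F) =
    r.map (algebraMap ℚ F) * (∑ x, ∑ y, A x y • (E (Matrix.single x y 1)).map (algebraMap ℚ F)) *
      i.map (algebraMap ℚ F)
  rw [Matrix.mul_sum, Matrix.sum_mul]
  refine Finset.sum_congr rfl fun x _ => ?_
  rw [Matrix.mul_sum, Matrix.sum_mul]
  refine Finset.sum_congr rfl fun y _ => ?_
  rw [sand_apply, Matrix.map_mul, Matrix.map_mul, Matrix.mul_smul, Matrix.smul_mul]

/-- If the rational matrix `p` commutes with the images of `D` and `D'`, it commutes with the image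
of the Lie algebra. -/
theorem comm_lie (E : Matrix ι ι ℚ →ₗ[ℚ] Matrix κ κ ℚ) (D D' : Matrix ι ι ℂ)
    (hE : LieOn (mtLie D D') E) (p : Matrix κ κ ℚ)
    (h : p.map (algebraMap ℚ ℂ) * ext ℂ E D = ext ℂ E D * p.map (algebraMap ℚ ℂ))
    (h' : p.map (algebraMap ℚ ℂ) * ext ℂ E D' = ext ℂ E D' * p.map (algebraMap ℚ ℂ))
    (x : Matrix ι ι ℚ) (hx : x ∈ mtLie D D') : p * E x = E x * p := by
  let K : Submodule ℚ (Matrix ι ι ℚ) :=
    { carrier := {x | p * E x = E x * p}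
      zero_mem' := by
        show p * E 0 = E 0 * p
        rw [map_zero, Matrix.mul_zero, Matrix.zero_mul]
      add_mem' := by
        intro x y hx hy
        show p * E (x + y) = E (x + y) * p
        rw [map_add, Matrix.mul_add, Matrix.add_mul]
        exact congrArg₂ (· + ·) hx hy
      smul_mem' := by
        intro c x hx
        show p * E (c • x) = E (c • x) * p
        rw [map_smul, Matrix.mul_smul, Matrix.smul_mul]
        exact congrArg (c • ·) hx }
  have h1 : mtLie D D' ≤ mtLie D D' ⊓ K := by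
    apply mt_le
    · rintro x ⟨hx, hx'⟩ y ⟨hy, hy'⟩
      refine ⟨mt_lie D D' x hx y hy, ?_⟩
      have hx2 : p * E x = E x * p := hx'
      have hy2 : p * E y = E y * p := hy'
      show p * E (x * y - y * x) = E (x * y - y * x) * p
      rw [hE x hx y hy, Matrix.mul_sub, Matrix.sub_mul, ← Matrix.mul_assoc, ← Matrix.mul_assoc,
        hx2, hy2, Matrix.mul_assoc, Matrix.mul_assoc, hx2, hy2, Matrix.mul_assoc, Matrix.mul_assoc]
    · intro φ
      refine ⟨(t_SPAN ℂ ι _ D).1 (mt_mem D D') φ, ?_⟩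
      show p * E (D.map φ) = E (D.map φ) * p
      rw [← ext_map, ← map_rat_mul, ← map_mul_rat, h]
    · intro φ
      refine ⟨(t_SPAN ℂ ι _ D').1 (mt_mem' D D') φ, ?_⟩
      show p * E (D'.map φ) = E (D'.map φ) * p
      rw [← ext_map, ← map_rat_mul, ← map_mul_rat, h']
  exact (h1 hx).2

end sand

section near

variable {κ κ' : Type} [Fintype κ] [DecidableEq κ] [Fintype κ'] [DecidableEq κ'] {ℓ : ℕ}
  [Fact ℓ.Prime]

theorem exists_bound {α β : Type} [Fintype α] [Fintype β] (r : Matrix α β ℚ_[ℓ]) :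
    ∃ n : ℕ, ∀ i j, ‖r i j‖ ≤ (ℓ : ℝ) ^ n := by
  have h1 : (1 : ℝ) < ℓ := by exact_mod_cast (Fact.out : ℓ.Prime).one_lt
  have h2 : ∀ x : α × β, ∃ n : ℕ, ‖r x.1 x.2‖ < (ℓ : ℝ) ^ n := fun x => pow_unbounded_of_one_lt _ h1
  choose n hn using h2
  refine ⟨Finset.univ.sup n, fun i j => (hn (i, j)).le.trans ?_⟩
  exact pow_le_pow_right₀ h1.le (Finset.le_sup (f := n) (Finset.mem_univ (i, j)))

/-- Matrices near one: the compression. -/
theorem near_sand (r : Matrix κ' κ ℚ_[ℓ]) (i : Matrix κ κ' ℚ_[ℓ]) (hri : r * i = 1) (n m : ℕ)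
    (hr : ∀ a b, ‖r a b‖ ≤ (ℓ : ℝ) ^ n) (hi : ∀ a b, ‖i a b‖ ≤ (ℓ : ℝ) ^ m) (N : ℕ)
    (g : Matrix κ κ ℚ_[ℓ]) (hg : NearOne (n + N + m) g) : NearOne N (r * g * i) := by
  have h1 : r * g * i - 1 = r * (g - 1) * i := by
    rw [Matrix.mul_sub, Matrix.sub_mul, Matrix.mul_one, hri]
  have h0 : (0 : ℝ) < ℓ := by exact_mod_cast (Fact.out : ℓ.Prime).pos
  intro a b
  rw [h1, Matrix.mul_apply]
  refine IsUltrametricDist.norm_sum_le_of_forall_le_of_nonneg (by positivity) fun c _ => ?_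
  rw [norm_mul, Matrix.mul_apply]
  have h2 : ‖∑ d, r a d * (g - 1) d c‖ ≤ (ℓ : ℝ) ^ n * ((ℓ : ℝ) ^ (n + N + m))⁻¹ := by
    refine IsUltrametricDist.norm_sum_le_of_forall_le_of_nonneg (by positivity) fun d _ => ?_
    rw [norm_mul]
    exact mul_le_mul (hr a d) (hg d c) (norm_nonneg _) (by positivity)
  refine (mul_le_mul h2 (hi c b) (norm_nonneg _) (by positivity)).trans (le_of_eq ?_)
  rw [pow_add, pow_add]
  field_simp

/-- The logarithm of the compression. -/
theorem log_sand (r : Matrix κ' κ ℚ_[ℓ]) (i : Matrix κ κ' ℚ_[ℓ]) (hri : r * i = 1)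
    (g : Matrix κ κ ℚ_[ℓ]) (g' : Matrix κ' κ' ℚ_[ℓ]) (hg : g' * r = r * g) (L : Matrix κ κ ℚ_[ℓ])
    (hL : IsLog g L) : IsLog g' (r * L * i) := by
  have h1 : ∀ k : ℕ, g' ^ k * r = r * g ^ k := by
    intro k
    induction k with
    | zero => rw [pow_zero, pow_zero, Matrix.one_mul, Matrix.mul_one]
    | succ k ih => rw [pow_succ, Matrix.mul_assoc, hg, ← Matrix.mul_assoc, ih, Matrix.mul_assoc,
        ← pow_succ]
  have h2 : ∀ k : ℕ, g' ^ k - 1 = r * (g ^ k - 1) * i := by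
    intro k
    rw [Matrix.mul_sub, Matrix.sub_mul, Matrix.mul_one, hri, ← h1, Matrix.mul_assoc, hri,
      Matrix.mul_one]
  have h3 : Continuous fun X : Matrix κ κ ℚ_[ℓ] => r * X * i :=
    (continuous_const.matrix_mul continuous_id).matrix_mul continuous_const
  have h4 := (h3.tendsto L).comp hL
  refine h4.congr fun k => ?_
  show r * (((ℓ : ℚ_[ℓ]) ^ k)⁻¹ • (g ^ ℓ ^ k - 1)) * i = ((ℓ : ℚ_[ℓ]) ^ k)⁻¹ • (g' ^ ℓ ^ k - 1)
  rw [h2, Matrix.mul_smul, Matrix.smul_mul]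

end near

/-- P11f: direct summands. -/
theorem t_SUMMAND : S_SUMMAND := by
  intro ℓ _ Γ _ T _ _ d B W G M N hM hN
  obtain ⟨E, hlie, hlog, C, _, _, a, b, e, hmul, hone, hh, hD, hD'⟩ := hM
  obtain ⟨i, r, hi, hr, hri⟩ := hN
  -- the projection
  have hri' : ∀ (F : Type) [Field F] [Algebra ℚ F],
      r.map (algebraMap ℚ F) * i.map (algebraMap ℚ F) = 1 := by
    intro F _ _
    rw [← Matrix.map_mul, hri]
    exact Matrix.map_one _ (map_zero _) (map_one _)
  set p : Matrix M.κ M.κ ℚ := i * r with hp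
  have hrp : r * p = r := by rw [hp, ← Matrix.mul_assoc, hri, Matrix.one_mul]
  have hpi : p * i = i := by rw [hp, Matrix.mul_assoc, hri, Matrix.mul_one]
  have hrpC : r.map (algebraMap ℚ ℂ) * p.map (algebraMap ℚ ℂ) = r.map (algebraMap ℚ ℂ) := by
    rw [← Matrix.map_mul, hrp]
  have hpc : ∀ z : ℂ, z ≠ 0 → p.map (algebraMap ℚ ℂ) * M.h z = M.h z * p.map (algebraMap ℚ ℂ) := by
    intro z hz
    rw [hp, Matrix.map_mul, Matrix.mul_assoc, ← hr.1 z hz, ← Matrix.mul_assoc, ← hi.1 z hz,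
      Matrix.mul_assoc]
  have hfc : ∀ q ∈ QQ a b, p.map (algebraMap ℚ ℂ) * fq a b e q =
      fq a b e q * p.map (algebraMap ℚ ℂ) := by
    intro q hq
    refine fq_comm a b e _ (fun z hz => ?_) q hq
    rw [← hh z hz]
    exact hpc z hz
  have hDq : ext ℂ E (D2 B W) = ∑ q ∈ QQ a b, (q.1 : ℂ) • fq a b e q := by
    rw [hD]
    exact fq_sum a b e (fun q => (q.1 : ℂ))
  have hDq' : ext ℂ E (D2' B W) = ∑ q ∈ QQ a b, (q.2 : ℂ) • fq a b e q := by
    rw [hD']
    exact fq_sum a b e (fun q => (q.2 : ℂ))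
  have hcomm : ∀ x ∈ mtLie (D2 B W) (D2' B W), p * E x = E x * p := by
    intro x hx
    refine comm_lie E _ _ hlie p ?_ ?_ x hx
    · rw [hDq, Finset.mul_sum, Finset.sum_mul]
      refine Finset.sum_congr rfl fun q hq => ?_
      rw [Matrix.mul_smul, Matrix.smul_mul, hfc q hq]
    · rw [hDq', Finset.mul_sum, Finset.sum_mul]
      refine Finset.sum_congr rfl fun q hq => ?_
      rw [Matrix.mul_smul, Matrix.smul_mul, hfc q hq]
  refine ⟨sand E i r, ?_, ?_, ↥(QQ a b), inferInstance, inferInstance, fun q => q.1.1,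
    fun q => q.1.2, fun q => r.map (algebraMap ℚ ℂ) * fq a b e q.1 * i.map (algebraMap ℚ ℂ),
    ?_, ?_, ?_, ?_, ?_⟩
  · -- the bracket
    intro x hx y hy
    have key : ∀ x ∈ mtLie (D2 B W) (D2' B W), ∀ y : Matrix _ _ ℚ,
        r * E x * i * (r * E y * i) = r * (E x * E y) * i := by
      intro x hx y
      calc r * E x * i * (r * E y * i) = r * (E x * (i * r)) * E y * i := by
            simp only [Matrix.mul_assoc]
        _ = r * (i * r * E x) * E y * i := by rw [← hp, hcomm x hx]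
        _ = (r * i) * (r * (E x * E y) * i) := by simp only [Matrix.mul_assoc]
        _ = r * (E x * E y) * i := by rw [hri, Matrix.one_mul]
    rw [sand_apply, sand_apply, sand_apply, hlie x hx y hy, key x hx y, key y hy x,
      Matrix.mul_sub, Matrix.sub_mul]
  · -- logarithms
    intro n
    obtain ⟨n₁, hn₁⟩ := exists_bound (ℓ := ℓ) (r.map (algebraMap ℚ ℚ_[ℓ]))
    obtain ⟨n₂, hn₂⟩ := exists_bound (ℓ := ℓ) (i.map (algebraMap ℚ ℚ_[ℓ]))
    obtain ⟨Δ, hΔ, h⟩ := hlog (n₁ + n + n₂)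
    refine ⟨Δ, hΔ, fun σ hσ => ?_⟩
    obtain ⟨h1, h2⟩ := h σ hσ
    have hNρ : N.ρ σ = r.map (algebraMap ℚ ℚ_[ℓ]) * M.ρ σ * i.map (algebraMap ℚ ℚ_[ℓ]) := by
      rw [← hr.2 σ, Matrix.mul_assoc, hri' ℚ_[ℓ], Matrix.mul_one]
    refine ⟨?_, fun L hL => ?_⟩
    · rw [hNρ]
      exact near_sand _ _ (hri' ℚ_[ℓ]) n₁ n₂ hn₁ hn₂ n _ h1
    · rw [ext_sand]
      exact log_sand _ _ (hri' ℚ_[ℓ]) _ _ (hr.2 σ) _ (h2 L hL)
  · -- orthogonality
    intro q q'
    have h1 : r.map (algebraMap ℚ ℂ) * fq a b e q.1 * i.map (algebraMap ℚ ℂ) *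
        (r.map (algebraMap ℚ ℂ) * fq a b e q'.1 * i.map (algebraMap ℚ ℂ)) =
        r.map (algebraMap ℚ ℂ) * (fq a b e q.1 * fq a b e q'.1) * i.map (algebraMap ℚ ℂ) := by
      calc _ = r.map (algebraMap ℚ ℂ) * (fq a b e q.1 * (i.map (algebraMap ℚ ℂ) *
              r.map (algebraMap ℚ ℂ))) * fq a b e q'.1 * i.map (algebraMap ℚ ℂ) := by
            simp only [Matrix.mul_assoc]
        _ = r.map (algebraMap ℚ ℂ) * (p.map (algebraMap ℚ ℂ) * fq a b e q.1) * fq a b e q'.1 *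
              i.map (algebraMap ℚ ℂ) := by
            rw [← Matrix.map_mul, ← hp, hfc q.1 q.2]
        _ = (r.map (algebraMap ℚ ℂ) * p.map (algebraMap ℚ ℂ)) * (fq a b e q.1 * fq a b e q'.1) *
              i.map (algebraMap ℚ ℂ) := by simp only [Matrix.mul_assoc]
        _ = _ := by rw [hrpC]
    show r.map (algebraMap ℚ ℂ) * fq a b e q.1 * i.map (algebraMap ℚ ℂ) *
        (r.map (algebraMap ℚ ℂ) * fq a b e q'.1 * i.map (algebraMap ℚ ℂ)) =
      if q = q' then r.map (algebraMap ℚ ℂ) * fq a b e q.1 * i.map (algebraMap ℚ ℂ) else 0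
    rw [h1, fq_mul a b e hmul]
    by_cases hqq : q = q'
    · rw [if_pos hqq, if_pos (congrArg Subtype.val hqq)]
    · rw [if_neg hqq, if_neg fun h => hqq (Subtype.ext h), Matrix.mul_zero, Matrix.zero_mul]
  · -- the sum is one
    have h1 : ∑ q ∈ QQ a b, fq a b e q = 1 := by
      have h2 := fq_sum a b e (fun _ => (1 : ℂ))
      simp only [one_smul] at h2
      rw [← h2, hone]
    rw [Finset.sum_coe_sort (QQ a b)
      (fun q => r.map (algebraMap ℚ ℂ) * fq a b e q * i.map (algebraMap ℚ ℂ)),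
      ← Matrix.sum_mul, ← Matrix.mul_sum, h1, Matrix.mul_one, hri' ℂ]
  · intro z hz
    have h1 : N.h z = r.map (algebraMap ℚ ℂ) * M.h z * i.map (algebraMap ℚ ℂ) := by
      rw [← hr.1 z hz, Matrix.mul_assoc, hri' ℂ, Matrix.mul_one]
    rw [h1, hh z hz, fq_sum a b e (fun q => z ^ (-q.1) * starRingEnd ℂ z ^ (-q.2)),
      Finset.sum_coe_sort (QQ a b) (fun q => (z ^ (-q.1) * starRingEnd ℂ z ^ (-q.2)) •
        (r.map (algebraMap ℚ ℂ) * fq a b e q * i.map (algebraMap ℚ ℂ))), Matrix.mul_sum,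
      Matrix.sum_mul]
    refine Finset.sum_congr rfl fun q _ => ?_
    rw [Matrix.mul_smul, Matrix.smul_mul]
  · rw [ext_sand, hDq, Finset.sum_coe_sort (QQ a b) (fun q => (q.1 : ℂ) •
        (r.map (algebraMap ℚ ℂ) * fq a b e q * i.map (algebraMap ℚ ℂ))), Matrix.mul_sum,
      Matrix.sum_mul]
    refine Finset.sum_congr rfl fun q _ => ?_
    rw [Matrix.mul_smul, Matrix.smul_mul]
  · rw [ext_sand, hDq', Finset.sum_coe_sort (QQ a b) (fun q => (q.2 : ℂ) •
        (r.map (algebraMap ℚ ℂ) * fq a b e q * i.map (algebraMap ℚ ℂ))), Matrix.mul_sum,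
      Matrix.sum_mul]
    refine Finset.sum_congr rfl fun q _ => ?_
    rw [Matrix.mul_smul, Matrix.smul_mul]

end

end Run7.h644.MT
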